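import Pool.Agent.H.MP_4de4a9_lc.C

set_option autoImplicit false

namespace Pool.Agent.Results.MP_4de4a9_lc.Two

open Pool.Agent.H.MP_4de4a9_lc Relation

/-- an ET0L system whose terminal alphabet is (a copy of) `Δ` -/
structure Sys (Δ : Type) where
  Sym : Type
  fin : Finite Sym
  H : Set (Sym → Set (List Sym))
  H_fin : H.Finite
  H_ne : H.Nonempty
  tab : ∀ h ∈ H, ∀ c, (h c).Finite ∧ (h c).Nonempty
  ax : List Sym
  ax_ne : ax ≠ []
  ι : Δ ↪ Sym

/-- one derivation step: all letter occurrences are rewritten at once, independently, by the same table -/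
def Sys.Step {Δ : Type} (G : Sys Δ) (x y : List G.Sym) : Prop :=
  ∃ h ∈ G.H, ∃ ws : List (List G.Sym), List.Forall₂ (fun c w => w ∈ h c) x ws ∧ y = ws.flatten

def Sys.lang {Δ : Type} (G : Sys Δ) : Set (List Δ) := {w | ReflTransGen G.Step G.ax (w.map G.ι)}

/-- every table moves at most `k` letters -/
def Sys.Restricted {Δ : Type} (G : Sys Δ) (k : ℕ) : Prop := ∀ h ∈ G.H, {c | h c ≠ {[c]}}.ncard ≤ k

/-- languages over `Δ` generated by `k`-restricted systems -/
def Fam (k : ℕ) (Δ : Type) : Set (Set (List Δ)) := {L | ∃ G : Sys Δ, G.Restricted k ∧ G.lang = L}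

theorem step_eq {Δ : Type} (G : Sys Δ) : G.Step = Stp G.H := by
  ext x y
  refine exists_congr fun h => and_congr_right' ⟨?_, fun s => ?_⟩
  · rintro ⟨ws, a, rfl⟩
    induction a with
    | nil => exact .nil
    | cons a _ ih => exact .cons a ih
  · induction s with
    | nil => exact ⟨[], .nil, rfl⟩
    | cons a _ ih => obtain ⟨ws, b, rfl⟩ := ih; exact ⟨_ :: ws, .cons a b, rfl⟩

theorem upper {Δ : Type} (G : Sys Δ) : G.lang ∈ Fam 2 Δ := by
  have := G.fin
  have := Finite.of_injective _ G.ι.injective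
  let K := insert (fun c => {[c]}) G.H
  have : Finite K := (G.H_fin.insert _).to_subtype
  have hK : ∀ h ∈ K, ∀ c, (h c).Finite := by
    rintro h (rfl | e) c
    · simp
    · exact (G.tab h e c).1
  let a₀ := G.ax.head G.ax_ne
  refine ⟨⟨Lt ((G.Sym × Bool) ⊕ Δ) (St K), inferInstance, _, rule_fin K G.ι a₀, ⟨_, _, _, _, .Z none, rfl⟩, ?_,
    (tg false G.ax).map .d ++ (ctl K G.ι a₀).fill (some (true, some ⟨_, .inl rfl⟩, Set.univ, a₀)),
    by simp [tg, G.ax_ne], ⟨fun τ => .d (.inr τ), fun _ _ e => by simpa using e⟩⟩, ?_, ?_⟩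
  · rintro _ ⟨a, b, A, r, rfl⟩ c
    have := rule_tab K G.ι a₀ hK r
    unfold T2 upd
    split_ifs <;> simp [this]
  · rintro _ ⟨a, b, A, r, rfl⟩
    refine (Set.ncard_le_ncard (t := {a, b}) (fun c hc => by_contra fun n => ?_) (Set.toFinite _)).trans
      ((Set.ncard_insert_le _ _).trans (by simp))
    refine hc ?_
    simp only [Set.mem_insert_iff, Set.mem_singleton_iff, not_or] at n
    simp [T2, n.1, upd_ne n.2]
  · ext w
    simp only [Sys.lang, step_eq, Set.mem_setOf_eq]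
    refine .trans (b := ReflTransGen (Stp K) G.ax (w.map G.ι)) (.trans ?_ (simul K G.ι a₀ G.ax ⟨_, .inl rfl⟩ rfl w))
      ⟨fun h => ?_, ReflTransGen.mono (r := Stp G.H) (p := Stp K) (fun _ _ ⟨h, a, b⟩ => ⟨h, .inr a, b⟩) _ _⟩
    · refine ⟨ReflTransGen.mono ?_ _ _, ReflTransGen.mono ?_ _ _⟩
      · rintro _ _ ⟨_, ⟨a, b, A, r, rfl⟩, s⟩; exact ⟨a, b, A, r, s⟩
      · rintro _ _ ⟨a, b, A, r, s⟩; exact ⟨_, ⟨a, b, A, r, rfl⟩, s⟩
    · refine reflTransGen_idem (r := Stp G.H) ▸ ReflTransGen.mono ?_ _ _ h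
      rintro _ _ ⟨_, rfl | e, s⟩
      · exact sb_id.1 s ▸ .refl
      · exact .single ⟨_, e, s⟩

def grow : Fin 5 → List (Fin 5 ⊕ Fin 5) := fun i => [.inl i, .inr i]

def tb (f : Fin 5 → List (Fin 5 ⊕ Fin 5)) : Fin 5 ⊕ Fin 5 → List (Fin 5 ⊕ Fin 5)
  | .inl i => [.inl i] | .inr i => f i

def five : Sys (Fin 5) where
  Sym := Fin 5 ⊕ Fin 5
  fin := inferInstance
  H := {fun c => {tb grow c}, fun c => {tb (fun i => [.inl i]) c}}
  H_fin := by simp
  H_ne := by simp
  tab := by rintro _ (rfl | rfl) <;> simp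
  ax := (List.finRange 5).map .inr
  ax_ne := by simp
  ι := .inl

def wd (n : ℕ) (e : Fin 5 → List (Fin 5 ⊕ Fin 5)) : List (Fin 5 ⊕ Fin 5) :=
  (List.finRange 5).flatMap fun i => List.replicate n (.inl i) ++ e i

theorem wd_tb (n e f) : (wd n e).flatMap (tb f) = wd n fun i => (e i).flatMap (tb f) := by
  simp [wd, List.flatMap_assoc, List.flatMap_replicate, tb]

theorem five_iff (w : List (Fin 5)) : w ∈ five.lang ↔ ∃ n, w = (List.finRange 5).flatMap (List.replicate (n + 1)) := by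
  have e1 : ∀ n, wd (n + 1) (fun _ => []) = ((List.finRange 5).flatMap (List.replicate (n + 1))).map .inl := by
    simp [wd, List.map_flatMap]
  have e2 : ∀ n, (wd n fun i => [.inr i]).flatMap (tb grow) = wd (n + 1) fun i => [.inr i] := fun n => by
    rw [wd_tb]; simp [wd, tb, grow, List.replicate_succ']
  have e3 : ∀ n, (wd n fun i => [.inr i]).flatMap (tb fun i => [.inl i]) = wd (n + 1) fun _ => [] := fun n => by
    rw [wd_tb]; simp [wd, tb, List.replicate_succ']
  simp only [Sys.lang, step_eq, Set.mem_setOf_eq]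
  constructor
  · intro h
    have k : ∀ z, ReflTransGen (Stp five.H) five.ax z →
        ∃ n, z = wd n (fun i => [.inr i]) ∨ z = wd (n + 1) fun _ => [] := fun z h => by
      induction h with
      | refl => exact ⟨0, .inl rfl⟩
      | tail _ s ih =>
        obtain ⟨_, rfl | rfl, s⟩ := s <;> rw [s.eq fun _ _ _ e => e] <;> obtain ⟨n, rfl | rfl⟩ := ih
        exacts [⟨_, .inl (e2 n)⟩, ⟨n, .inr (wd_tb ..)⟩, ⟨_, .inr (e3 n)⟩, ⟨n, .inr (wd_tb ..)⟩]
    obtain ⟨n, e | e⟩ := k _ h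
    · have : Sum.inr 0 ∈ w.map five.ι := by
        rw [e]; exact List.mem_flatMap.2 ⟨0, by simp, by simp⟩
      obtain ⟨_, -, e⟩ := List.mem_map.1 this
      cases e
    · exact ⟨n, List.map_injective_iff.2 Sum.inl_injective (e.trans (e1 n))⟩
  · rintro ⟨n, rfl⟩
    have k : ∀ n, ReflTransGen (Stp five.H) five.ax (wd n fun i => [.inr i]) := fun n => by
      induction n with
      | zero => exact .refl
      | succ n ih => exact ih.tail ⟨_, .inl rfl, e2 n ▸ sb_map fun _ _ => rfl⟩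
    exact (k n).tail ⟨_, .inr rfl, ((e3 n).trans (e1 n)) ▸ sb_map fun _ _ => rfl⟩

theorem five_not : five.lang ∉ Fam 1 (Fin 5) := by
  rintro ⟨G, h1, h2⟩
  have := G.fin
  have : ∀ h, ∃ t, h ∈ G.H → ∀ c ≠ t, h c = {[c]} := fun h => by
    by_cases e : h ∈ G.H
    · obtain e' | ⟨t, e'⟩ := (Set.ncard_le_one_iff_eq).1 (h1 h e)
      · exact ⟨G.ι 0, fun _ c _ => by_contra fun n => (Set.ext_iff.1 e' c).1 n⟩
      · exact ⟨t, fun _ c m => by_contra fun n => m ((Set.ext_iff.1 e' c).1 n)⟩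
    · exact ⟨G.ι 0, fun z => (e z).elim⟩
  choose t ht using this
  have e : ∀ w, ReflTransGen (Stp G.H) G.ax (List.map G.ι w) ↔ w ∈ five.lang := fun w => by
    rw [← h2, ← step_eq]; rfl
  refine Set.infinite_of_injective_forall_mem (f := fun n => (List.finRange 5).flatMap (List.replicate (n + 1)))
    (fun n m z => ?_) (fun n => (e _).2 ((five_iff _).2 ⟨n, rfl⟩))
    (lower G.H_fin (fun h z c => (G.tab h z c).1) t ht G.ι G.ax fun w hw => ?_)
  · have := congrArg List.length z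
    simp [List.finRange] at this
    omega
  · obtain ⟨n, rfl⟩ := (five_iff _).1 ((e _).1 hw)
    refine ⟨?_, n + 1, n.succ_pos, fun i => ?_⟩
    · simp +contextual [List.finRange, List.pairwise_append, List.pairwise_replicate, or_imp]
    · fin_cases i <;> simp [List.finRange, List.count_replicate]

theorem result : IsLeast {l : ℕ | 0 < l ∧ ∀ k, l ≤ k → ∀ Δ : Type, Fam k Δ = Fam (k + 1) Δ} 2 := by
  refine ⟨⟨two_pos, fun k hk Δ => ?_⟩, fun l ⟨h0, h⟩ => by_contra fun n => ?_⟩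
  · refine Set.Subset.antisymm (fun L ⟨G, a, b⟩ => ⟨G, fun h e => (a h e).trans k.le_succ, b⟩) ?_
    rintro _ ⟨G, -, rfl⟩
    obtain ⟨G', a, b⟩ := upper G
    exact ⟨G', fun h e => (a h e).trans hk, b⟩
  · exact five_not (h 1 (by omega) _ ▸ upper five)

end Pool.Agent.Results.MP_4de4a9_lc.Two
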